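import Pool.Agent.TH977.PW.Inst

set_option autoImplicit false

/-!
# The distribution of the primes `a ^ 2 + 1` with `a = k p`, `p` prime, around most of their arguments

Let `k_1, ..., k_j` be distinct positive even integers such that for every prime `q` there is an `m` with
`q ∤ m` and `q ∤ (k_i m) ^ 2 + 1` for all `i`; for `j = 1` this is always true. Let `R r` be the set of the `m` for
which all prime factors of `m` and of the numbers `(k_i m) ^ 2 + 1` are larger than `m ^ (1 / r)`; it contains all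
primes `p` for which all the `(k_i p) ^ 2 + 1` are primes. Let `A` be an ARBITRARY subset of `R r`, for example the
set of these `p`, or any part of this set. In EVERY short interval `(X, X + Y]`, `X ^ θ ≤ Y ≤ X / 2`, all but at most
`ε Y / log ^ (j + 1) X` of the elements `m` of `A` are regular points of `A`: ALL intervals `(m - s, m + t]` with
`s, t ≤ Y` and `s + t ≥ log ^ (j + 1) X / c` contain the right order `(s + t) / log ^ (j + 1) X` of elements of `A`,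
and `A` has constant density on both sides of `m`, up to `δ`, at all dyadic scales with at most `B (ε, δ)`
exceptions.

So, if `Y / log ^ (j + 1) X` is the order of magnitude of the number of the primes `p` in `(X, X + Y]` for which all
the `(k_i p) ^ 2 + 1` are primes, as the Bateman-Horn formula asserts, then around all but a small proportion of
these `p` it is the order of magnitude at all scales down to a constant times the average distance: most of these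
`p` have neighbours on both sides at a distance at most `C log ^ (j + 1) X`.
-/

namespace Pool.Agent.Results.MP_7169d5_nt.RegularPrimeArguments

open Filter

/-- The number of the elements of `A` in `(a, b]`. -/
noncomputable def N (A : Set ℕ) (a b : ℕ) : ℕ := (A ∩ Set.Ioc a b).ncard

/-- For every prime `q` there is an `m` with `q ∤ m` and `q ∤ (k i m) ^ 2 + 1` for all `i`. -/
def Admissible {j : ℕ} (k : Fin j → ℕ) : Prop :=
  ∀ q : ℕ, q.Prime → ∃ m : ℕ, ¬ q ∣ m ∧ ∀ i, ¬ q ∣ (k i * m) ^ 2 + 1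

/-- All prime factors of `m` and of the numbers `(k i m) ^ 2 + 1` are larger than `m ^ (1 / r)`. -/
def R {j : ℕ} (k : Fin j → ℕ) (r : ℕ) : Set ℕ :=
  {m | (∀ p : ℕ, p.Prime → p ∣ m → (m : ℝ) ^ (1 / (r : ℝ)) < (p : ℝ)) ∧
    ∀ i, ∀ p : ℕ, p.Prime → p ∣ (k i * m) ^ 2 + 1 → (m : ℝ) ^ (1 / (r : ℝ)) < (p : ℝ)}

/-- The primes `p` of `R r` for which all the numbers `(k i p) ^ 2 + 1` have at most `r` prime factors. -/
def Al {j : ℕ} (k : Fin j → ℕ) (r : ℕ) : Set ℕ :=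
  {p | p.Prime ∧ p ∈ R k r ∧ ∀ i, ((k i * p) ^ 2 + 1).primeFactorsList.length ≤ r}

/-- All intervals `(m - s, m + t]` with `s, t ≤ Y` and `s + t ≥ log ^ e X / c` contain the right order of
elements of `A`. -/
def RightOrder (A : Set ℕ) (e : ℕ) (c : ℝ) (X Y m : ℕ) : Prop :=
  ∀ s t : ℕ, s ≤ Y → t ≤ Y → Real.log X ^ e ≤ c * (s + t) →
    c * (s + t) / Real.log X ^ e ≤ N A (m - s) (m + t) ∧
      (N A (m - s) (m + t) : ℝ) ≤ (s + t) / (c * Real.log X ^ e)

/-- Up to `δ`, `A` has a constant density on both sides of `m` up to the distance `2 ^ n`. -/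
def ConstantDensity (A : Set ℕ) (e : ℕ) (c δ : ℝ) (X m n : ℕ) : Prop :=
  ∃ lam : ℝ, c ≤ lam ∧ lam ≤ 1 / c ∧ ∀ s t : ℕ, s ≤ 2 ^ n → t ≤ 2 ^ n →
    |(N A (m - s) (m + t) : ℝ) - lam * (s + t) / Real.log X ^ e| ≤ δ * 2 ^ n / Real.log X ^ e

/-- The number of the scales `log ^ e X ≤ 2 ^ n ≤ Y` without this property. -/
noncomputable def badScales (A : Set ℕ) (e : ℕ) (c δ : ℝ) (X Y m : ℕ) : ℕ :=
  {n : ℕ | Real.log X ^ e ≤ (2 : ℝ) ^ n ∧ 2 ^ n ≤ Y ∧ ¬ ConstantDensity A e c δ X m n}.ncard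

/-- The elements of `A` that are regular points of `A`. -/
def Regular (A : Set ℕ) (e : ℕ) (c δ : ℝ) (B X Y : ℕ) : Set ℕ :=
  {m | m ∈ A ∧ RightOrder A e c X Y m ∧ badScales A e c δ X Y m ≤ B}

open Pool.Agent.TH977.PW in
lemma N_eq (A : Set ℕ) (a b : ℕ) : Pool.Agent.TH977.PW.N A a b = N A a b := by
  classical
  unfold Pool.Agent.TH977.PW.N N
  rw [← Set.ncard_coe_finset]
  congr 1
  ext m
  simp only [Finset.coe_filter, Finset.mem_Ioc, Set.mem_inter_iff, Set.mem_Ioc, Set.mem_ofPred_eq]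
  tauto

lemma right_iff (A : Set ℕ) (e : ℕ) (c : ℝ) (X Y m : ℕ) :
    Pool.Agent.TH977.PW.RightOrder A e c X Y m ↔ RightOrder A e c X Y m := by
  unfold Pool.Agent.TH977.PW.RightOrder RightOrder
  simp only [N_eq]

lemma const_iff (A : Set ℕ) (e : ℕ) (c δ : ℝ) (X m j : ℕ) :
    Pool.Agent.TH977.PW.ConstantDensity A e c δ X m j ↔ ConstantDensity A e c δ X m j := by
  unfold Pool.Agent.TH977.PW.ConstantDensity ConstantDensity
  simp only [N_eq]

lemma bad_eq (A : Set ℕ) (e : ℕ) (c δ : ℝ) (X Y m : ℕ) (hY : 1 ≤ Y) :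
    Pool.Agent.TH977.PW.badScales A e c δ X Y m = badScales A e c δ X Y m := by
  classical
  unfold Pool.Agent.TH977.PW.badScales badScales
  rw [← Set.ncard_coe_finset]
  congr 1
  ext j
  simp only [Finset.coe_filter, Finset.mem_range, Set.mem_ofPred_eq, const_iff]
  have h : j < Nat.log 2 Y + 1 ↔ 2 ^ j ≤ Y := by
    rw [Nat.lt_succ_iff]
    exact (Nat.le_log_iff_pow_le (by norm_num) (by omega))
  rw [h]
  tauto

lemma N_mono (A B : Set ℕ) (a b : ℕ) (h : A ⊆ B) : N A a b ≤ N B a b := by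
  unfold N
  exact Set.ncard_le_ncard (Set.inter_subset_inter_left _ h)
    ((Set.finite_Ioc a b).subset Set.inter_subset_right)

lemma N_add_le (A B C : Set ℕ) (a b : ℕ) (h : A ⊆ B ∪ C) : N A a b ≤ N B a b + N C a b := by
  unfold N
  refine (Set.ncard_le_ncard ?_ (Set.Finite.union
    ((Set.finite_Ioc a b).subset Set.inter_subset_right)
    ((Set.finite_Ioc a b).subset Set.inter_subset_right))).trans
    (Set.ncard_union_le (B ∩ Set.Ioc a b) (C ∩ Set.Ioc a b))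
  intro m hm
  rcases h hm.1 with h1 | h1
  · exact Or.inl ⟨h1, hm.2⟩
  · exact Or.inr ⟨h1, hm.2⟩

lemma exists_of_N (A : Set ℕ) (a b : ℕ) (h : 1 ≤ N A a b) : ∃ m ∈ A, a < m ∧ m ≤ b := by
  unfold N at h
  obtain ⟨m, hm⟩ := (Set.ncard_pos ((Set.finite_Ioc a b).subset Set.inter_subset_right)).1
    (Nat.lt_of_lt_of_le Nat.zero_lt_one h)
  exact ⟨m, hm.1, hm.2.1, hm.2.2⟩

lemma exists_two (A : Set ℕ) (a b : ℕ) (h : 2 ≤ N A a b) : ∃ m ∈ A, a < m ∧ m < b := by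
  unfold N at h
  have hfin : (A ∩ Set.Ioc a b).Finite := (Set.finite_Ioc a b).subset Set.inter_subset_right
  obtain ⟨m, hm, hne⟩ := Set.exists_ne_of_one_lt_ncard (Nat.lt_of_lt_of_le Nat.one_lt_two h) b
  exact ⟨m, hm.1, hm.2.1, lt_of_le_of_ne hm.2.2 hne⟩

lemma adm_one (k : ℕ) (hk : Even k) : Admissible (fun _ : Fin 1 => k) := by
  intro q hq
  by_cases hqk : q ∣ k
  · refine ⟨1, fun h => hq.one_lt.ne' (Nat.dvd_one.1 h), fun _ h => ?_⟩
    have h1 : q ∣ (k * 1) ^ 2 := (hqk.mul_right 1).trans (dvd_pow_self _ two_ne_zero)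
    exact hq.one_lt.ne' (Nat.dvd_one.1 ((Nat.dvd_add_right h1).1 h))
  · have hq2 : q ≠ 2 := by
      rintro rfl
      exact hqk hk.two_dvd
    by_cases h1 : q ∣ (k * 1) ^ 2 + 1
    · refine ⟨2, fun h => hq2 ((Nat.prime_dvd_prime_iff_eq hq Nat.prime_two).1 h), fun _ h => ?_⟩
      have h2 : q ∣ 4 * ((k * 1) ^ 2 + 1) - ((k * 2) ^ 2 + 1) := Nat.dvd_sub (h1.mul_left 4) h
      have h3 : 4 * ((k * 1) ^ 2 + 1) - ((k * 2) ^ 2 + 1) = 3 := by
        have : (k * 2) ^ 2 = 4 * (k * 1) ^ 2 := by ring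
        omega
      rw [h3] at h2
      have h4 := (Nat.prime_dvd_prime_iff_eq hq Nat.prime_three).1 h2
      subst h4
      have h5 : k % 3 = 0 ∨ k % 3 = 1 ∨ k % 3 = 2 := by omega
      have h6 : ((k * 1) ^ 2 + 1) % 3 = 0 := Nat.mod_eq_zero_of_dvd h1
      rw [Nat.add_mod, Nat.pow_mod, mul_one] at h6
      rcases h5 with h5 | h5 | h5 <;> rw [h5] at h6 <;> norm_num at h6
    · exact ⟨1, fun h => hq.one_lt.ne' (Nat.dvd_one.1 h), fun _ => h1⟩

open Pool.Agent.TH464.PW Pool.Agent.TH977.PW in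
lemma main {j : ℕ} (k : Fin j → ℕ) (hk0 : ∀ i, 0 < k i) (hinj : Function.Injective k) (hadm : Admissible k)
    (θ : ℝ) (hθ : 0 < θ) (hθ1 : θ ≤ 1) :
    ∃ r0 : ℕ, 2 ≤ r0 ∧ ∀ r : ℕ, r0 ≤ r →
    (∃ κ : ℝ, 0 < κ ∧ ∀ᶠ X : ℕ in atTop, κ * X / Real.log X ^ (j + 1) ≤ N (Al k r) X (2 * X)) ∧
    ∀ ε : ℝ, 0 < ε → ∃ c : ℝ, 0 < c ∧ ∀ δ : ℝ, 0 < δ → ∃ B : ℕ,
      ∀ᶠ X : ℕ in atTop, ∀ Y : ℕ, (X : ℝ) ^ θ ≤ Y → 2 * Y ≤ X →
        ∀ A : Set ℕ, A ⊆ R k r →
        (N {m | m ∈ A ∧ m ∉ Regular A (j + 1) c δ B X Y} X (X + Y) : ℝ) ≤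
          ε * Y / Real.log X ^ (j + 1) := by
  have hpos : ∀ i, (0 : ℤ) < (k i : ℤ) ^ 2 := by
    intro i
    have : (0 : ℤ) < k i := by exact_mod_cast hk0 i
    positivity
  have hg : ∀ i, ∀ p : ℕ, p.Prime → ¬ ((p : ℤ) ∣ (k i : ℤ) ^ 2 ∧ (p : ℤ) ∣ 0 ∧ (p : ℤ) ∣ 1) := by
    rintro i p hp ⟨-, -, h⟩
    have := Int.natCast_dvd_natCast.1 (by exact_mod_cast h : ((p : ℕ) : ℤ) ∣ ((1 : ℕ) : ℤ))
    exact hp.one_lt.ne' (Nat.dvd_one.1 this)
  have hD : ∀ i, ¬ IsSquare ((0 : ℤ) ^ 2 - 4 * (k i : ℤ) ^ 2 * 1) := by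
    rintro i ⟨a, ha⟩
    nlinarith [mul_self_nonneg a, hpos i]
  have hev : ∀ i, ∀ m : ℕ, (quad ((k i : ℤ) ^ 2) 0 1).eval (m : ℤ) = (((k i * m) ^ 2 + 1 : ℕ) : ℤ) := by
    intro i m
    rw [quad_eval]
    push_cast
    ring
  obtain ⟨r0, hr0, h⟩ := final_prime (fun i : Fin j => quad ((k i : ℤ) ^ 2) 0 1)
    (fun i => quad_irr _ 0 1 (hpos i).ne' (hg i) (hD i))
    (fun i => by rw [quad_deg _ 0 1 (hpos i).ne']; norm_num)
    (fun i => by rw [quad_lead _ 0 1 (hpos i).ne']; exact hpos i)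
    (fun i i' hii => by
      have h1 := congrArg Polynomial.leadingCoeff hii
      simp only at h1
      rw [quad_lead _ 0 1 (hpos i).ne', quad_lead _ 0 1 (hpos i').ne'] at h1
      apply hinj
      have h2 : (k i) ^ 2 = (k i') ^ 2 := by exact_mod_cast h1
      exact Nat.pow_left_injective (by norm_num : (2 : ℕ) ≠ 0) h2)
    (fun i h => by
      have h1 := quad_deg _ 0 1 (hpos i).ne'
      rw [h, Polynomial.natDegree_X] at h1
      omega)
    (fun p hp => by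
      obtain ⟨m, h1, h2⟩ := hadm p hp
      refine ⟨m, h1, fun i hd => h2 i ?_⟩
      rw [hev] at hd
      exact Int.natCast_dvd_natCast.1 hd)
    (R k) (Al k) (j + 1) (by rw [Fintype.card_fin])
    (fun r m _ hm => by
      refine ⟨hm.1, ?_⟩
      intro i p hp hd
      rw [hev] at hd
      exact hm.2 i p hp (Int.natCast_dvd_natCast.1 hd))
    (fun r m hr hm h1 h2 => by
      refine ⟨hm, ⟨fun p hp hd => rpow_lt_dvd r m p hr hm hp hd, fun i p hp hd => ?_⟩, fun i => ?_⟩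
      · apply h1 i p hp
        show (p : ℤ) ∣ (quad ((k i : ℤ) ^ 2) 0 1).eval (m : ℤ)
        rw [hev]
        exact Int.natCast_dvd_natCast.2 hd
      · have h3 := h2 i
        change ((quad ((k i : ℤ) ^ 2) 0 1).eval (m : ℤ)).natAbs.primeFactorsList.length ≤ r at h3
        rw [hev, Int.natAbs_natCast] at h3
        exact h3) θ hθ hθ1
  refine ⟨r0, hr0, fun r hr => ⟨?_, ?_⟩⟩
  · obtain ⟨κ, hκ, h1⟩ := (h r hr).1
    refine ⟨κ, hκ, ?_⟩
    filter_upwards [h1] with X hX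
    rw [N_eq] at hX
    exact hX
  · intro ε hε
    obtain ⟨c, hc, h1⟩ := (h r hr).2 ε hε
    refine ⟨c, hc, fun δ hδ => ?_⟩
    obtain ⟨B, h2⟩ := h1 δ hδ
    refine ⟨B, ?_⟩
    filter_upwards [h2, eventually_ge_atTop 1] with X hX hX1 Y hY hYX A hA
    have hY1 : 1 ≤ Y := by
      have h3 : (1 : ℝ) ≤ (X : ℝ) ^ θ := Real.one_le_rpow (by exact_mod_cast hX1) hθ.le
      exact_mod_cast h3.trans hY
    have h4 := hX Y hY hYX A hA
    rw [N_eq] at h4
    refine le_trans ?_ h4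
    have h5 : {m | m ∈ A ∧ m ∉ Regular A (j + 1) c δ B X Y} ⊆ Irregular A (j + 1) c δ B X Y := by
      rintro m ⟨hm, hm2⟩
      refine ⟨hm, fun h6 => hm2 ⟨hm, (right_iff A _ c X Y m).1 h6.1, ?_⟩⟩
      rw [← bad_eq A _ c δ X Y m hY1]
      exact h6.2
    exact_mod_cast N_mono _ _ X (X + Y) h5

/-- **Regular prime arguments.** Let `k i`, `i < j`, be distinct positive integers such that for every prime `q` there
is an `m` with `q ∤ m` and `q ∤ (k i m) ^ 2 + 1` for all `i`; for `j = 1` and `k` even this is always true. For every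
`0 < θ ≤ 1` and all large `r`:
1. `p ∈ R r` if `p` and all the `(k i p) ^ 2 + 1` are primes;
2. for large `X` at least `κ X / log ^ (j + 1) X` primes `p` in `(X, 2 X]` are in `R r`, with at most `r` prime factors
   of each `(k i p) ^ 2 + 1`;
3. for every `ε > 0` there is `c > 0` and for every `δ > 0` a `B` such that in every interval
   `(X, X + Y]`, `X ^ θ ≤ Y ≤ X / 2`, `X` large, for EVERY subset `A` of `R r` all but at most
   `ε Y / log ^ (j + 1) X` elements of `A` are regular points of `A`;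
4. for all `κ, ε > 0` there are `c, C > 0` and for every `δ > 0` a `B` such that for all large `X`, all
   `X ^ θ ≤ Y ≤ X / 2` and EVERY set `P` of primes `p` for which all the `(k i p) ^ 2 + 1` are primes, which has at
   least `κ Y / log ^ (j + 1) X` elements in `(X, X + Y]`, all of these elements `p` with the exception of at most
   the proportion `ε` are regular points of `P`, and have neighbours `p₁ < p < p₂` in `P` with
   `p₂ - p ≤ C log ^ (j + 1) X`, `p - p₁ ≤ C log ^ (j + 1) X`. -/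
theorem result : (∀ k : ℕ, Even k → Admissible (fun _ : Fin 1 => k)) ∧
    ∀ (j : ℕ) (k : Fin j → ℕ), (∀ i, 0 < k i) → Function.Injective k → Admissible k →
    ∀ θ : ℝ, 0 < θ → θ ≤ 1 →
    (∃ r₀ : ℕ, 2 ≤ r₀ ∧ ∀ r : ℕ, r₀ ≤ r →
      (∀ p : ℕ, p.Prime → (∀ i, ((k i * p) ^ 2 + 1).Prime) → p ∈ R k r) ∧
      (∃ κ : ℝ, 0 < κ ∧ ∀ᶠ X : ℕ in atTop, κ * X / Real.log X ^ (j + 1) ≤ N (Al k r) X (2 * X)) ∧
      ∀ ε : ℝ, 0 < ε → ∃ c : ℝ, 0 < c ∧ ∀ δ : ℝ, 0 < δ → ∃ B : ℕ,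
        ∀ᶠ X : ℕ in atTop, ∀ Y : ℕ, (X : ℝ) ^ θ ≤ Y → 2 * Y ≤ X →
          ∀ A : Set ℕ, A ⊆ R k r →
          (N {m | m ∈ A ∧ m ∉ Regular A (j + 1) c δ B X Y} X (X + Y) : ℝ) ≤
            ε * Y / Real.log X ^ (j + 1)) ∧
    ∀ κ ε : ℝ, 0 < κ → 0 < ε → ∃ c C : ℝ, 0 < c ∧ 0 < C ∧ ∀ δ : ℝ, 0 < δ → ∃ B : ℕ,
      ∀ᶠ X : ℕ in atTop, ∀ Y : ℕ, (X : ℝ) ^ θ ≤ Y → 2 * Y ≤ X →
        ∀ P : Set ℕ, (∀ p ∈ P, p.Prime ∧ ∀ i, ((k i * p) ^ 2 + 1).Prime) →
          κ * Y / Real.log X ^ (j + 1) ≤ N P X (X + Y) →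
          (1 - ε) * N P X (X + Y) ≤ N {p | p ∈ Regular P (j + 1) c δ B X Y ∧
            (∃ p₁ ∈ P, p₁ < p ∧ (p : ℝ) - p₁ ≤ C * Real.log X ^ (j + 1)) ∧
            ∃ p₂ ∈ P, p < p₂ ∧ (p₂ : ℝ) - p ≤ C * Real.log X ^ (j + 1)} X (X + Y) := by
  refine ⟨adm_one, ?_⟩
  intro j k hk0 hinj hadm θ hθ hθ1
  obtain ⟨r0, hr0, h⟩ := main k hk0 hinj hadm θ hθ hθ1
  have hR : ∀ r : ℕ, r0 ≤ r → ∀ p : ℕ, p.Prime → (∀ i, ((k i * p) ^ 2 + 1).Prime) → p ∈ R k r := by
    intro r hr p hp hp2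
    refine ⟨fun q hq hd => Pool.Agent.TH977.PW.rpow_lt_dvd r p q (hr0.trans hr) hp hq hd,
      fun i q hq hd => ?_⟩
    rw [(Nat.prime_dvd_prime_iff_eq hq (hp2 i)).1 hd]
    apply Pool.Agent.TH977.PW.rpow_lt_of_le r p _ (hr0.trans hr) hp.two_le
    have h1 : p ≤ k i * p := Nat.le_mul_of_pos_left p (hk0 i)
    nlinarith [hp.two_le]
  refine ⟨⟨r0, hr0, fun r hr => ⟨hR r hr, h r hr⟩⟩, ?_⟩
  intro κ ε hκ hε
  obtain ⟨c, hc, h1⟩ := (h r0 le_rfl).2 (ε * κ) (by positivity)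
  refine ⟨c, 2 / c + 1, hc, by positivity, fun δ hδ => ?_⟩
  obtain ⟨B, h2⟩ := h1 δ hδ
  refine ⟨B, ?_⟩
  have hlog : ∀ᶠ X : ℕ in atTop, (2 / c + 1) * Real.log X ^ (j + 1) ≤ (X : ℝ) ^ θ := by
    have h3 := (isLittleO_log_rpow_rpow_atTop (j + 1 : ℝ) hθ).bound
      (show (0 : ℝ) < 1 / (2 / c + 1) by positivity)
    have h4 := (tendsto_natCast_atTop_atTop (R := ℝ)).eventually h3
    filter_upwards [h4, eventually_ge_atTop 1] with X hX hX1
    have hX1' : (1 : ℝ) ≤ X := by exact_mod_cast hX1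
    have hl : 0 ≤ Real.log X := Real.log_nonneg hX1'
    have he : Real.log (X : ℝ) ^ ((j : ℝ) + 1) = Real.log X ^ (j + 1) := by
      rw [← Real.rpow_natCast]
      push_cast
      rfl
    rw [Real.norm_of_nonneg (by positivity), Real.norm_of_nonneg (by positivity), he,
      one_div, inv_mul_eq_div, le_div_iff₀ (by positivity)] at hX
    linarith
  filter_upwards [h2, hlog, eventually_ge_atTop 3] with X hX hXl hX3 Y hY hYX P hP hN
  have hX3' : (3 : ℝ) ≤ X := by exact_mod_cast hX3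
  have hl1' : 1 ≤ Real.log X := by
    rw [Real.le_log_iff_exp_le (by linarith)]
    linarith [Real.exp_one_lt_d9]
  obtain ⟨L, hL⟩ : ∃ L : ℝ, L = Real.log X ^ (j + 1) := ⟨_, rfl⟩
  have hl1 : 1 ≤ L := by rw [hL]; exact one_le_pow₀ hl1'
  have hl0 : 0 < L := by linarith
  rw [← hL] at hXl hN ⊢
  have hYR : (0 : ℝ) ≤ Y := Nat.cast_nonneg Y
  have hPR : P ⊆ R k r0 := fun p hp => hR r0 le_rfl p (hP p hp).1 (hP p hp).2
  have h5 := hX Y hY hYX P hPR
  rw [← hL] at h5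
  have h6 : (N {m | m ∈ P ∧ m ∉ Regular P (j + 1) c δ B X Y} X (X + Y) : ℝ) ≤ ε * N P X (X + Y) := by
    refine h5.trans ?_
    have h7 : ε * κ * Y / L = ε * (κ * Y / L) := by ring
    rw [h7]
    exact mul_le_mul_of_nonneg_left hN hε.le
  have hceil : ∀ x : ℝ, 0 ≤ x → x ≤ 2 / c * L → ∃ T : ℕ, x ≤ T ∧ T ≤ Y ∧
      (T : ℝ) ≤ (2 / c + 1) * L := by
    intro x hx0 hx
    refine ⟨⌈x⌉₊, Nat.le_ceil x, ?_, ?_⟩
    · have h8 : (⌈x⌉₊ : ℝ) < x + 1 := Nat.ceil_lt_add_one hx0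
      have h9 : (⌈x⌉₊ : ℝ) ≤ Y := by
        have : x + 1 ≤ (2 / c + 1) * L := by
          rw [add_mul, one_mul]
          linarith
        linarith
      exact_mod_cast h9
    · have h8 : (⌈x⌉₊ : ℝ) < x + 1 := Nat.ceil_lt_add_one hx0
      rw [add_mul, one_mul]
      linarith
  have h10 : P ⊆ {m | m ∈ Regular P (j + 1) c δ B X Y ∧
      (∃ m₁ ∈ P, m₁ < m ∧ (m : ℝ) - m₁ ≤ (2 / c + 1) * L) ∧
      ∃ m₂ ∈ P, m < m₂ ∧ (m₂ : ℝ) - m ≤ (2 / c + 1) * L} ∪
      {m | m ∈ P ∧ m ∉ Regular P (j + 1) c δ B X Y} := by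
    intro m hm
    by_cases hreg : m ∈ Regular P (j + 1) c δ B X Y
    · left
      refine ⟨hreg, ?_, ?_⟩
      · obtain ⟨S, hS1, hS2, hS3⟩ := hceil (2 / c * L) (by positivity) le_rfl
        have h11 : 2 * L ≤ c * S := by
          have := mul_le_mul_of_nonneg_left hS1 hc.le
          rw [← mul_assoc, mul_div_cancel₀ _ hc.ne'] at this
          exact this
        have h12 := (hreg.2.1 S 0 hS2 (Nat.zero_le _) (by rw [← hL]; push_cast; linarith)).1
        rw [← hL, Nat.cast_zero, add_zero, div_le_iff₀ hl0] at h12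
        have h13 : (2 : ℝ) ≤ N P (m - S) (m + 0) := by
          by_contra hcon
          rw [not_le] at hcon
          nlinarith
        obtain ⟨m₁, h14, h15, h16⟩ := exists_two P (m - S) (m + 0) (by exact_mod_cast h13)
        refine ⟨m₁, h14, by omega, ?_⟩
        have h17 : m ≤ m₁ + S := by omega
        have h18 : (m : ℝ) ≤ m₁ + S := by exact_mod_cast h17
        linarith
      · obtain ⟨T, hT1, hT2, hT3⟩ := hceil (1 / c * L) (by positivity) (by
          have : 1 / c * L ≤ 2 / c * L := by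
            apply mul_le_mul_of_nonneg_right _ hl0.le
            exact div_le_div_of_nonneg_right (by norm_num) hc.le
          exact this)
        have h11 : L ≤ c * T := by
          have := mul_le_mul_of_nonneg_left hT1 hc.le
          rw [← mul_assoc, mul_div_cancel₀ _ hc.ne', one_mul] at this
          exact this
        have h12 := (hreg.2.1 0 T (Nat.zero_le _) hT2 (by rw [← hL]; push_cast; linarith)).1
        rw [← hL, Nat.cast_zero, zero_add, div_le_iff₀ hl0] at h12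
        have h13 : (1 : ℝ) ≤ N P (m - 0) (m + T) := by
          by_contra hcon
          rw [not_le] at hcon
          nlinarith
        obtain ⟨m₂, h14, h15, h16⟩ := exists_of_N P (m - 0) (m + T) (by exact_mod_cast h13)
        refine ⟨m₂, h14, by omega, ?_⟩
        have h18 : (m₂ : ℝ) ≤ m + T := by exact_mod_cast h16
        linarith
    · right
      exact ⟨hm, hreg⟩
  have h19 := N_add_le _ _ _ X (X + Y) h10
  have h20 : (N P X (X + Y) : ℝ) ≤ N {m | m ∈ Regular P (j + 1) c δ B X Y ∧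
      (∃ m₁ ∈ P, m₁ < m ∧ (m : ℝ) - m₁ ≤ (2 / c + 1) * L) ∧
      ∃ m₂ ∈ P, m < m₂ ∧ (m₂ : ℝ) - m ≤ (2 / c + 1) * L} X (X + Y) +
      N {m | m ∈ P ∧ m ∉ Regular P (j + 1) c δ B X Y} X (X + Y) := by exact_mod_cast h19
  linarith

end Pool.Agent.Results.MP_7169d5_nt.RegularPrimeArguments
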