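import Mathlib
import Pool.Agent.U529.BL.Smooth

/-!
# Smooth values of `m² + l²`, `m ≤ N`, for all but `N ^ μ` of the `l ≤ N`

Let `0 < μ < 1` and `ε > 0`. There is a `c > 0` such that for all but at most `N ^ μ` of the `l ≤ N` at least `c N` of the
`m ≤ N` are such that all prime factors of `m² + l²` are at most `N ^ (1 - μ + ε)`.

Proof. Take `k` disjoint intervals `[α_i, β_i)` close to `(1 + μ) / k` with `∑ α_i ≥ 1 + μ - ε / 2`, `∑ β_i < 1 + μ`. By the
law for the tuples of prime factors (`Pool/Agent/U529/BL/Law.lean`: all but `N ^ μ` of the polynomials `m² + l²`, `l ≤ N`,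
have level of distribution `N ^ (1 + μ - ε)`) a positive proportion of the `m² + l²` has prime factors `p_i` with
`N ^ α_i ≤ p_i < N ^ β_i`, and the cofactor of their product is at most `2 N ^ (1 - μ + ε / 2)`.
-/

set_option autoImplicit false

namespace Pool.Agent.Results.MP_7169d5_nt.SmoothValuesFewExceptions

open Finset Filter Topology

open Classical in
/-- the number of the `m ≤ N` for which all prime factors of `m² + l²` are at most `z` -/
noncomputable def smoothValues (l N : ℕ) (z : ℝ) : ℕ :=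
  ((Icc 1 N).filter (fun m : ℕ => ∀ p : ℕ, p.Prime → p ∣ m ^ 2 + l ^ 2 → (p : ℝ) ≤ z)).card

open Classical in
theorem result (μ ε : ℝ) (hμ0 : 0 < μ) (hμ1 : μ < 1) (hε : 0 < ε) : ∃ c : ℝ, 0 < c ∧
    ∀ᶠ N : ℕ in atTop, (((Icc 1 N).filter (fun l : ℕ =>
      (smoothValues l N ((N : ℝ) ^ (1 - μ + ε)) : ℝ) < c * N)).card : ℝ) ≤ (N : ℝ) ^ μ := by
  obtain ⟨c, hc, h⟩ := Pool.Agent.U529.BL.smooth μ ε hμ0 hμ1 hε
  refine ⟨c, hc, ?_⟩
  unfold Pool.Agent.U529.BL.FE at h
  filter_upwards [h] with N hN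
  exact hN

end Pool.Agent.Results.MP_7169d5_nt.SmoothValuesFewExceptions
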