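import Pool.Agent.Results.MP_7169d5_nt.ThinFamiliesAllQuadratics
import Pool.Agent.U497.AW.QuadA

/-!
# The primes in almost all members of the thin families `f(X) + c - f(h)`, in all short intervals

Let `f = a X² + b X` with integers `a ≠ 0` and `b`. For every integer `c` with few small prime factors,
`|c| ≤ K H²`, for which no prime divides all the numbers `f(m) + c - f(h)`, and for all but at most `ε H` of the `h ≤ H`: the
number of the `m ≤ M` for which `f(m) + c - f(h)` is a prime is the number predicted by Hardy and Littlewood, for all `M ≤ K H`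
(this part is the hand-in `ThinFamiliesAllQuadratics` of the starting files), and EVERY set `S` of `m ≤ K H` for which
`f(m) + c - f(h)` is a prime has the properties

(1) all elements of `S` with the exception of at most `δ H / log H` are terms of `k`-term arithmetic progressions contained in `S`
with common difference at most `(log H) ^ B`;

(2) if `S` has at least `δ H / log H` elements, then for at least `c₀ H` of the `n ≤ K H` ALL intervals `(n, n + L]` with
`H ≤ c₀ |S| L`, `L ≤ K H` simultaneously (that is those of all lengths from the average distance up to `K H`) contain at least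
`c₀ |S| L / H` elements of `S` which are terms of such progressions; `c₀ > 0` does not depend on `H`, `c` and `k`.

For `f = X²`, `c = 1` these are the primes of the form `m² + 1 - h²`; the constant terms form a set of only `H` integers of size
`H²`.

New in (1) (`Pool/Agent/U497/SF`): a transference argument for one-parameter families. A common prime factor `p` of `F(m)` and `F(m + t)`,
`F = f + c - f(h)`, divides `(2 a h + b)² - 4 a c - a² t²`, so it fixes `h` modulo `p` up to two classes; a high moment over `h` shows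
that almost all `F` have few common prime factors of medium size for all `t ≤ (log H) ^ B`, large common factors are removed from
`F(m)`. The sieve product is at most a constant times `1 / log H` for almost all `h` by a second moment. Then the theorem of Szemerédi
relative to sifted sets of the starting files (`K3h89/SZ`) applies. New in (2) (`Pool/Agent/U497/AW`): a theorem for dense subsets of
arbitrary sifted sets, by an upper bound sieve for the pairs `F(m)`, `F(m + t)`, the average over `t` of its singular series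
(small primes: Jensen's inequality, large primes: convexity) and a covering argument for all scales.
-/

set_option autoImplicit false

namespace Pool.Agent.Results.MP_7169d5_nt.ThinFamilyShortIntervals

open Finset

/-- `c` has few small prime factors beyond `s₀`: `∑_{p ∣ c, p > s} 1/p ≤ 1/√s` for all `s ≥ s₀`. -/
def Tame (s₀ : ℕ) (c : ℤ) : Prop :=
  c ≠ 0 ∧ ∀ s : ℕ, s₀ ≤ s → ∑ p ∈ c.natAbs.primeFactors.filter (fun p => s < p), 1 / (p : ℝ) ≤ 1 / √(s : ℝ)

/-- The polynomial `f(X) = a X² + b X`. -/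
def f (a b n : ℤ) : ℤ := a * n ^ 2 + b * n

/-- No prime divides all the numbers `f(m) - f(h) + c`: `gcd(a, b, c) = 1`, and `c` is odd if `a + b` is even. -/
def Unobstructed (a b c : ℤ) : Prop :=
  (∀ p : ℕ, p.Prime → (p : ℤ) ∣ a → (p : ℤ) ∣ b → ¬ (p : ℤ) ∣ c) ∧ (Even (a + b) → Odd c)

/-- The `1 ≤ m ≤ M` with `f(m) + e` a (positive) prime. -/
def primeArguments (a b e : ℤ) (M : ℕ) : Set ℕ := {m : ℕ | 1 ≤ m ∧ m ≤ M ∧ (f a b m + e).toNat.Prime}

/-- The sum of `1 / log (f(m) + e)` over the `1 ≤ m ≤ M` with `f(m) + e ≥ 2`. -/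
noncomputable def logSum (a b e : ℤ) (M : ℕ) : ℝ :=
  ∑ m ∈ (Icc 1 M).filter (fun m : ℕ => 2 ≤ f a b m + e), 1 / Real.log ((f a b m + e : ℤ) : ℝ)

/-- The number of the solutions of `f(m) + e ≡ 0` modulo `p`. -/
def omega (a b e : ℤ) (p : ℕ) : ℕ := ((range p).filter (fun m : ℕ => (p : ℤ) ∣ f a b m + e)).card

/-- The product of Hardy and Littlewood for `f(X) + e`, over the primes `p ≤ Z`. -/
noncomputable def series (a b e : ℤ) (Z : ℕ) : ℝ :=
  ∏ p ∈ (Ioc 0 Z).filter Nat.Prime, (1 - (omega a b e p : ℝ) / p) / (1 - 1 / (p : ℝ))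

/-- `n` is a term of an arithmetic progression with `k` terms, contained in `S`, with common difference at most `D`. -/
def InProgression (S : Set ℕ) (k : ℕ) (D : ℝ) (n : ℕ) : Prop :=
  ∃ x r : ℕ, 1 ≤ r ∧ (r : ℝ) ≤ D ∧ (∀ i < k, x + i * r ∈ S) ∧ ∃ i < k, n = x + i * r

/-- The `1 ≤ n ≤ N` such that for ALL `L ≤ N` with `1 ≤ c u L` the interval `(n, n + L]` contains at least `c u L` elements
of `S`. -/
def richPoints (S : Set ℕ) (c u : ℝ) (N : ℕ) : Set ℕ :=
  {n : ℕ | 1 ≤ n ∧ n ≤ N ∧ ∀ L : ℕ, L ≤ N → 1 ≤ c * (u * L) →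
    c * (u * L) ≤ (Set.ncard {m : ℕ | m ∈ S ∧ n < m ∧ m ≤ n + L} : ℝ)}

/-- The conclusion for the constant term `e`: the product of Hardy and Littlewood is at least `κ`; the number of primes
`f(m) + e`, `m ≤ M`, is the expected one up to `δ H / log H`, for all `M ≤ K H`; in every set `S` of arguments `m ≤ K H` of
primes all but at most `δ H / log H` elements are terms of progressions in `S` with difference at most `(log H) ^ B`, and if `S`
has at least `δ H / log H` elements, then at least `c₀ H` points are rich for the set of these terms. -/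
def Good (k : ℕ) (a b : ℤ) (κ δ c₀ : ℝ) (B K H Z : ℕ) (e : ℤ) : Prop :=
  κ ≤ series a b e Z ∧
    (∀ M : ℕ, M ≤ K * H →
      |((primeArguments a b e M).ncard : ℝ) - series a b e Z * logSum a b e M| ≤ δ * (H / Real.log H)) ∧
    ∀ S ⊆ primeArguments a b e (K * H),
      (Set.ncard {m : ℕ | m ∈ S ∧ ¬ InProgression S k (Real.log H ^ B) m} : ℝ) ≤ δ * (H / Real.log H) ∧
      (δ * (H / Real.log H) ≤ (S.ncard : ℝ) → c₀ * H ≤
        ((richPoints {m : ℕ | m ∈ S ∧ InProgression S k (Real.log H ^ B) m} c₀ (S.ncard / H) (K * H)).ncard : ℝ))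

open Classical in
/-- The number of the `1 ≤ h ≤ H` for which the conclusion fails for `e = c - f(h)`. -/
noncomputable def exceptions (k : ℕ) (a b : ℤ) (κ δ c₀ : ℝ) (c : ℤ) (B K H Z : ℕ) : ℕ :=
  ((Icc 1 H).filter (fun h : ℕ => ¬ Good k a b κ δ c₀ B K H Z (c - f a b h))).card

lemma primeArguments_eq (a b e : ℤ) (M : ℕ) :
    primeArguments a b e M = (((Icc 1 M).filter (fun m : ℕ => (f a b m + e).toNat.Prime) : Finset ℕ) : Set ℕ) := by
  ext m
  rw [primeArguments, mem_coe, mem_filter, mem_Icc, Set.mem_ofPred_eq]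
  tauto

open Classical in
lemma rich_eq (T : Finset ℕ) (c u : ℝ) (N H : ℕ) (hH : 0 < H) : ((richPoints (T : Set ℕ) c (u / H) N).ncard : ℝ) =
    (((Ioc 0 N).filter (fun n : ℕ => ∀ L : ℕ, (H : ℝ) ≤ c * (u * L) → L ≤ N →
      c * (u * L) / H ≤ ((T.filter (fun m => m ∈ Ioc n (n + L))).card : ℝ))).card : ℝ) := by
  have hxr : (0 : ℝ) < H := by exact_mod_cast hH
  have h1 : ∀ n L : ℕ, Set.ncard {m : ℕ | m ∈ (T : Set ℕ) ∧ n < m ∧ m ≤ n + L} =
      (T.filter (fun m => m ∈ Ioc n (n + L))).card := by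
    intro n L
    rw [← Set.ncard_coe_finset]
    congr 1
    ext m
    rw [mem_coe, mem_filter, mem_Ioc]
    rfl
  have h2 : ∀ L : ℕ, c * (u / H * L) = c * (u * L) / H := by
    intro L
    ring
  have h3 : ∀ L : ℕ, 1 ≤ c * (u * L) / H ↔ (H : ℝ) ≤ c * (u * L) := by
    intro L
    rw [le_div_iff₀ hxr, one_mul]
  rw [← Set.ncard_coe_finset]
  congr 2
  ext n
  rw [mem_coe, mem_filter, mem_Ioc, richPoints, Set.mem_ofPred_eq]
  simp only [h1, h2, h3]
  constructor
  · rintro ⟨h4, h5, h6⟩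
    exact ⟨⟨by omega, h5⟩, fun L hL1 hL2 => h6 L hL2 hL1⟩
  · rintro ⟨⟨h4, h5⟩, h6⟩
    exact ⟨by omega, h5, fun L hL1 hL2 => h6 L hL2 hL1⟩

/-- **Theorem.** -/
theorem result (a b : ℤ) (ha : a ≠ 0) (s₀ : ℕ) :
    ∀ ε : ℝ, 0 < ε → ∃ κ : ℝ, 0 < κ ∧ ∀ (δ : ℝ) (K : ℕ), 0 < δ → 1 ≤ K → ∃ c₀ : ℝ, 0 < c₀ ∧ ∀ k : ℕ, 2 ≤ k →
      ∃ Z₀ B : ℕ, ∀ A : ℕ, ∃ H₀ : ℕ, ∀ H : ℕ, H₀ ≤ H →
      ∀ (c : ℤ) (Z : ℕ), Tame s₀ c → Unobstructed a b c → c.natAbs ≤ K * H ^ 2 → Z₀ ≤ Z → (Z : ℝ) ≤ Real.log H ^ A →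
      (exceptions k a b κ δ c₀ c B K H Z : ℝ) ≤ ε * H := by
  classical
  intro ε hε
  obtain ⟨κ, hκ, h1⟩ := ThinFamiliesAllQuadratics.result a b ha s₀ (ε / 3) (by positivity)
  refine ⟨κ, hκ, fun δ K hδ hK => ?_⟩
  obtain ⟨Z₀, h2⟩ := h1 δ K hδ
  obtain ⟨c₀, hc₀, hQA⟩ := Pool.Agent.U497.AW.quadA a b ha K hK δ (ε / 3) hδ (by positivity)
  refine ⟨c₀, hc₀, fun k hk => ?_⟩
  obtain ⟨B₁, x1, h3⟩ := Pool.Agent.U497.SF.quad a b ha k hk K δ (ε / 3) hδ (by positivity)
  obtain ⟨B₂, x3, h33⟩ := hQA k hk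
  refine ⟨Z₀, max B₁ B₂, fun A => ?_⟩
  obtain ⟨x2, h4⟩ := h2 A
  refine ⟨max (max x1 x2) (max x3 3), fun H hH c Z hc hu hcK hZ1 hZ2 => ?_⟩
  have hH1 : x1 ≤ H := (le_max_left _ _).trans ((le_max_left _ _).trans hH)
  have hH2 : x2 ≤ H := (le_max_right _ _).trans ((le_max_left _ _).trans hH)
  have hH3 : x3 ≤ H := (le_max_left _ _).trans ((le_max_right _ _).trans hH)
  have hH4 : 3 ≤ H := (le_max_right _ _).trans ((le_max_right _ _).trans hH)
  have hHpos : 0 < H := by omega
  have hL1 : (1 : ℝ) ≤ Real.log H := by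
    rw [Real.le_log_iff_exp_le (by exact_mod_cast hHpos)]
    have h5 := Real.exp_one_lt_d9
    have h6 : (3 : ℝ) ≤ H := by exact_mod_cast hH4
    linarith
  have h5 := h4 H hH2 c Z hc hu hcK hZ1 hZ2
  obtain ⟨Bad, b1, b2, b3⟩ := h3 H hH1 c hu hcK
  obtain ⟨Bad', b1', b2', b3'⟩ := h33 H hH3 c hu hcK
  set E1 := (Icc 1 H).filter (fun h : ℕ => ¬ ThinFamiliesAllQuadratics.Good a b κ δ K H Z (c - f a b h)) with hE1
  have hE1c : (E1.card : ℝ) ≤ ε / 3 * H := h5
  have hsub : (Icc 1 H).filter (fun h : ℕ => ¬ Good k a b κ δ c₀ (max B₁ B₂) K H Z (c - f a b h)) ⊆ E1 ∪ Bad ∪ Bad' := by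
    intro h hh
    rw [mem_filter] at hh
    obtain ⟨hhI, hng⟩ := hh
    rw [mem_union, mem_union]
    by_contra hcon
    rw [not_or, not_or] at hcon
    obtain ⟨⟨n1, n2⟩, n3⟩ := hcon
    have hg : ThinFamiliesAllQuadratics.Good a b κ δ K H Z (c - f a b h) := by
      by_contra h6
      exact n1 (mem_filter.2 ⟨hhI, h6⟩)
    apply hng
    refine ⟨hg.1, fun M hM => ?_, fun S hS => ?_⟩
    · have h6 := hg.2 M hM
      rw [primeArguments_eq, Set.ncard_coe_finset]
      exact h6
    · rw [primeArguments_eq] at hS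
      have hfin : S.Finite := (Finset.finite_toSet _).subset hS
      obtain ⟨T, rfl⟩ : ∃ T : Finset ℕ, S = (T : Set ℕ) := ⟨hfin.toFinset, hfin.coe_toFinset.symm⟩
      have hT : T ⊆ Pool.Agent.U497.SF.PQ a b c h (K * H) := fun n hn => mem_coe.1 (hS (mem_coe.2 hn))
      have hmono : ∀ B' : ℕ, B' ≤ max B₁ B₂ → ∀ n, Pool.Agent.U497.SP.InP T k (Real.log H ^ B') n →
          InProgression (T : Set ℕ) k (Real.log H ^ max B₁ B₂) n := by
        intro B' hB' n hn
        obtain ⟨x, r, e1, e2, e3, e4⟩ := hn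
        exact ⟨x, r, e1, e2.trans (pow_le_pow_right₀ hL1 hB'), fun i hi => mem_coe.2 (e3 i hi), e4⟩
      constructor
      · refine le_trans ?_ (b3 h hhI n2 T hT)
        have h9 : {n : ℕ | n ∈ (T : Set ℕ) ∧ ¬ InProgression (T : Set ℕ) k (Real.log H ^ max B₁ B₂) n} ⊆
            {n : ℕ | n ∈ T ∧ ¬ Pool.Agent.U497.SP.InP T k (Real.log H ^ B₁) n} := by
          intro n hn
          exact ⟨mem_coe.1 hn.1, fun h10 => hn.2 (hmono B₁ (le_max_left _ _) n h10)⟩
        have h11 : {n : ℕ | n ∈ T ∧ ¬ Pool.Agent.U497.SP.InP T k (Real.log H ^ B₁) n}.Finite :=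
          (Finset.finite_toSet T).subset fun n hn => mem_coe.2 hn.1
        exact_mod_cast Set.ncard_le_ncard h9 h11
      · intro hTc
        rw [Set.ncard_coe_finset] at hTc ⊢
        have h12 := b3' h hhI n3 T hT hTc
        have h13 : {n : ℕ | n ∈ (T : Set ℕ) ∧ InProgression (T : Set ℕ) k (Real.log H ^ max B₁ B₂) n} =
            ((T.filter (fun n => InProgression (T : Set ℕ) k (Real.log H ^ max B₁ B₂) n) : Finset ℕ) : Set ℕ) := by
          ext n
          rw [mem_coe, mem_filter]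
          rfl
        rw [h13, rich_eq _ _ _ _ _ hHpos]
        refine h12.trans ?_
        have h14 : (Ioc 0 (K * H)).filter (fun n : ℕ => ∀ M : ℕ, (H : ℝ) ≤ c₀ * (T.card * M) → M ≤ K * H →
            c₀ * (T.card * M) / H ≤
            ((T.filter (fun m => Pool.Agent.U497.SP.InP T k (Real.log H ^ B₂) m ∧ m ∈ Ioc n (n + M))).card : ℝ)) ⊆
            (Ioc 0 (K * H)).filter (fun n : ℕ => ∀ L : ℕ, (H : ℝ) ≤ c₀ * (T.card * L) → L ≤ K * H →
            c₀ * (T.card * L) / H ≤
            (((T.filter (fun n => InProgression (T : Set ℕ) k (Real.log H ^ max B₁ B₂) n)).filter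
              (fun m => m ∈ Ioc n (n + L))).card : ℝ)) := by
          intro n hn
          rw [mem_filter] at hn ⊢
          refine ⟨hn.1, fun L hL1' hL2 => (hn.2 L hL1' hL2).trans ?_⟩
          have h15 : T.filter (fun m => Pool.Agent.U497.SP.InP T k (Real.log H ^ B₂) m ∧ m ∈ Ioc n (n + L)) ⊆
              (T.filter (fun n => InProgression (T : Set ℕ) k (Real.log H ^ max B₁ B₂) n)).filter
              (fun m => m ∈ Ioc n (n + L)) := by
            intro m hm
            rw [mem_filter] at hm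
            rw [mem_filter, mem_filter]
            exact ⟨⟨hm.1, hmono B₂ (le_max_right _ _) m hm.2.1⟩, hm.2.2⟩
          exact_mod_cast card_le_card h15
        exact_mod_cast card_le_card h14
  have h6 : (exceptions k a b κ δ c₀ c (max B₁ B₂) K H Z : ℝ) ≤ E1.card + Bad.card + Bad'.card := by
    unfold exceptions
    have h7 := (card_le_card hsub).trans ((card_union_le _ _).trans (Nat.add_le_add_right (card_union_le _ _) _))
    exact_mod_cast h7
  linarith

end Pool.Agent.Results.MP_7169d5_nt.ThinFamilyShortIntervals
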