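import Pool.Agent.U918.LP.Two

/-!
# Primes `m² + b² + c² + k` for almost all pairs `(b, c)`, with arbitrary weights on the `m`

Let `w` be ANY bounded real weight on the integers `m ≤ X`, for example the indicator of an arbitrary set, and let
`0 ≤ k ≤ B X²` be any integer, for example `k = 1`. For all but a share `log ^ (-U) X` of the pairs `(b, c)` of integers
`1 ≤ b, c ≤ X`, the sum of `w m` over the `m` for which `m² + b² + c² + k` is prime is the sum of
`w m / (V z log (m² + b² + c² + k))` over the `m` for which `m² + b² + c² + k` is free of primes `≤ z`, up to an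
error `X / log ^ D X`; here `z` is a power of `log X`, `V z = ∏_{p ≤ z} (1 - 1/p)`, and this holds simultaneously for
all initial intervals `m ≤ y`, `y ≤ X`, and all residue classes of `m` to all moduli up to `log ^ K X`.

In particular, for ARBITRARY sets `S ⊆ [1, X]` and `T ⊆ [1, X]²` the number of triples `(m, b, c)`, `m ∈ S`,
`(b, c) ∈ T`, for which `m² + b² + c² + 1` is prime is known up to `X³ / log ^ D X`.
-/

set_option autoImplicit false

open Finset

namespace Pool.Agent.Results.MP_7169d5_nt.ThreeSquares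

/-- the product of `1 - 1/p` over the primes `p ≤ z` -/
noncomputable def V (z : ℕ) : ℝ := ∏ p ∈ (Icc 1 z).filter Nat.Prime, (1 - 1 / (p : ℝ))

open Classical in
/-- the sum of `w m` over the `m`, `1 ≤ m ≤ y`, `m ≡ a mod q`, for which `m² + h` is prime -/
noncomputable def primeSum (w : ℕ → ℝ) (h q a y : ℕ) : ℝ :=
  ∑ m ∈ (Icc 1 y).filter (fun m => m ≡ a [MOD q] ∧ (m ^ 2 + h).Prime), w m

open Classical in
/-- the sum of `w m / (V z · log (m² + h))` over the `m`, `1 ≤ m ≤ y`, `m ≡ a mod q`, for which no prime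
`p ≤ z` divides `m² + h` -/
noncomputable def modelSum (z : ℕ) (w : ℕ → ℝ) (h q a y : ℕ) : ℝ :=
  ∑ m ∈ (Icc 1 y).filter (fun m => m ≡ a [MOD q] ∧ ∀ p : ℕ, p.Prime → p ≤ z → ¬ p ∣ m ^ 2 + h),
    w m * (V z * Real.log ((m ^ 2 + h : ℕ) : ℝ))⁻¹

open Classical in
/-- **The theorem.** For all `B`, `U`, `D`, `K` there is `B₀` such that for every `E`, every large `X`, every integer `z`
with `log ^ B₀ X ≤ z ≤ log ^ E X`, EVERY weight `w` with `|w m| ≤ 1` and EVERY integer `0 ≤ k ≤ B X²`: for all but at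
most `X² / log ^ U X` of the pairs `(b, c)` of integers `1 ≤ b, c ≤ X`, one has for all `y ≤ X`, all moduli
`1 ≤ q ≤ log ^ K X` and all classes `a` that `primeSum w (b² + c² + k) q a y` and `modelSum z w (b² + c² + k) q a y`
differ by at most `X / log ^ D X`. -/
theorem result (B U D K : ℕ) :
    ∃ B₀ : ℕ, ∀ E : ℕ, ∃ X₀ : ℕ, ∀ X : ℕ, X₀ ≤ X → ∀ z : ℕ, Real.log X ^ B₀ ≤ z → (z : ℝ) ≤ Real.log X ^ E →
    ∀ w : ℕ → ℝ, (∀ m, |w m| ≤ 1) → ∀ k : ℕ, k ≤ B * X ^ 2 →
    (((Icc 1 X ×ˢ Icc 1 X).filter (fun t : ℕ × ℕ =>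
      ∃ y ≤ X, ∃ q a : ℕ, 1 ≤ q ∧ (q : ℝ) ≤ Real.log X ^ K ∧
        (X : ℝ) / Real.log X ^ D <
          |primeSum w (t.1 ^ 2 + t.2 ^ 2 + k) q a y - modelSum z w (t.1 ^ 2 + t.2 ^ 2 + k) q a y|)).card : ℝ) ≤
      (X : ℝ) ^ 2 / Real.log X ^ U := by
  have hdeg : (Polynomial.X ^ 2 : Polynomial ℤ).natDegree = 2 := by compute_degree!
  obtain ⟨B₀, h0⟩ := Pool.Agent.U918.LP.two (Polynomial.X ^ 2 : Polynomial ℤ) hdeg
    (by rw [Polynomial.leadingCoeff, hdeg]; simp) (fun m => m ^ 2) (fun m => by simp)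
    (fun u v huv => Nat.pow_le_pow_left huv 2) B U D K
  refine ⟨B₀, fun E => ?_⟩
  obtain ⟨x0, hx0⟩ := h0 E
  refine ⟨x0, fun X hX z hz1 hz2 w hw k hk => ?_⟩
  refine le_trans (le_of_eq ?_) (hx0 X hX z hz1 hz2 w hw k hk)
  have e1 : ∀ h q a y : ℕ, primeSum w h q a y =
      Pool.Agent.U918.LP.PS (fun _ : Fin 1 => true) (fun _ m => m ^ 2) w (fun _ => h) q a y := by
    intro h q a y
    unfold primeSum Pool.Agent.U918.LP.PS
    simp only [forall_const]
    rfl
  have e2 : ∀ h q a y : ℕ, modelSum z w h q a y =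
      Pool.Agent.U918.LP.MS (fun _ : Fin 1 => true) (fun _ m => m ^ 2) z w (fun _ => h) q a y := by
    intro h q a y
    unfold modelSum Pool.Agent.U918.LP.MS
    simp only [forall_const, univ_unique, prod_singleton]
    rfl
  simp only [e1, e2]

end Pool.Agent.Results.MP_7169d5_nt.ThreeSquares
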